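import Pool.Agent.H242.GX.Stm6

/-!
# GU-SIG0: the form of a projective involution with the fixed point 0 (helper738)
-/

set_option autoImplicit false

open Set Filter Topology
open scoped ContDiff

namespace Pool.Agent.H738.GU

open Pool.Agent.H242.GX

theorem gu_SIG0 : S_SIG0 := by
  intro U Y z v h
  obtain ⟨ε, hε, hU, hanti, hmono, a, b, c, d, hdet, δ, hδ, hδε, hf⟩ := h
  have hd : d ≠ 0 := by
    have := (hf 0 (by rw [abs_zero]; exact hδ)).1
    rwa [mul_zero, zero_add] at this
  have hlim : ∀ p q : ℝ, Tendsto (fun t : ℝ => (p * t + q) / (c * t + d)) (𝓝 0) (𝓝 (q / d)) := by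
    intro p q
    have h1 : ContinuousAt (fun t : ℝ => (p * t + q) / (c * t + d)) 0 := by
      refine ContinuousAt.div (by fun_prop) (by fun_prop) ?_
      rwa [mul_zero, zero_add]
    have h2 := h1.tendsto
    simp only [mul_zero, zero_add] at h2
    exact h2
  have hsmall : ∀ᶠ t : ℝ in 𝓝 0, |t| < δ :=
    (continuous_abs.tendsto 0).eventually_lt_const (by rwa [abs_zero])
  -- `b = 0`
  have hb1 : b / d ≤ 0 := by
    refine le_of_tendsto ((hlim a b).mono_left (nhdsWithin_le_nhds (s := Ioi 0))) ?_
    filter_upwards [nhdsWithin_le_nhds hsmall, self_mem_nhdsWithin] with t ht ht0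
    have ht0' : 0 < t := ht0
    have h1 := (hf t ht).2.2.1 ht0'.ne'
    by_contra hcon
    push Not at hcon
    exact absurd (mul_pos ht0' hcon) (not_lt.2 h1.le)
  have hb2 : 0 ≤ b / d := by
    refine ge_of_tendsto ((hlim a b).mono_left (nhdsWithin_le_nhds (s := Iio 0))) ?_
    filter_upwards [nhdsWithin_le_nhds hsmall, self_mem_nhdsWithin] with t ht ht0
    have ht0' : t < 0 := ht0
    have h1 := (hf t ht).2.2.1 ht0'.ne
    by_contra hcon
    push Not at hcon
    exact absurd (mul_pos_of_neg_of_neg ht0' hcon) (not_lt.2 h1.le)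
  have hb : b = 0 := by
    have h1 : b / d = 0 := le_antisymm hb1 hb2
    rcases div_eq_zero_iff.1 h1 with h2 | h2
    · exact h2
    · exact absurd h2 hd
  subst hb
  have ha : a ≠ 0 := by
    rintro rfl
    apply hdet
    ring
  -- `a / d < 0`
  have had : a / d < 0 := by
    have h1 : a / d ≤ 0 := by
      refine le_of_tendsto ((hlim 0 a).mono_left (nhdsWithin_le_nhds (s := Ioi 0))) ?_
      filter_upwards [nhdsWithin_le_nhds hsmall, self_mem_nhdsWithin] with t ht ht0
      have ht0' : 0 < t := ht0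
      have h1 := (hf t ht).2.2.1 ht0'.ne'
      have h2 : t * ((a * t + 0) / (c * t + d)) = t ^ 2 * ((0 * t + a) / (c * t + d)) := by ring
      rw [h2] at h1
      by_contra hcon
      push Not at hcon
      exact absurd (mul_pos (pow_pos ht0' 2) hcon) (not_lt.2 h1.le)
    exact lt_of_le_of_ne h1 (div_ne_zero ha hd)
  refine ⟨-(a / d), c / d, min δ (1 / (|c / d| + 1)), by linarith, lt_min hδ (by positivity),
    fun t ht => ?_⟩
  rw [lt_min_iff] at ht
  have hk : 0 < 1 + c / d * t := by
    have h1 : |c / d * t| < 1 := by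
      rw [abs_mul]
      have h2 := ht.2
      rw [lt_div_iff₀ (by positivity)] at h2
      have h3 : |c / d| * |t| ≤ |t| * (|c / d| + 1) := by
        nlinarith [abs_nonneg t, abs_nonneg (c / d)]
      linarith
    have h2 := neg_abs_le (c / d * t)
    linarith
  refine ⟨hk, ?_⟩
  obtain ⟨f1, f2, f3, f4⟩ := hf t ht.1
  rw [← f4]
  congr 3
  have e1 : c * t + d = d * (1 + c / d * t) := by
    field_simp
    ring
  rw [e1, add_zero, div_eq_div_iff hk.ne' (mul_ne_zero hd hk.ne')]
  field_simp

end Pool.Agent.H738.GU
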